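import Pool.Agent.R331.BA.Meas

set_option autoImplicit false

namespace Pool.Agent.Results.MP_f446af_nt.SuppNotBad

open Pool.Agent.R331.BA

/-- There is a non-singular `2 × 1` real matrix `A` and a one-dimensional algebraic measure `μ` on
`T^2` with `μ(Bad_A) > 0` whose support is not contained in `Bad_A`. -/
theorem result : ∃ A : Matrix (Fin 2) (Fin 1) ℝ, ¬ Singular A ∧
    ∃ C : Coset 2 1, 0 < C.haar (Bad A) ∧ ¬ (C.supp ⊆ Bad A) := by
  refine ⟨col α₁ α₂, nonsingular, hor ((0:ℝ) : UnitAddCircle), ?_, ?_⟩
  · have hd : Adm (fun _ => 0) := by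
      intro k
      have := S_pos k
      simp
      linarith
    have hx : ∀ m, |(0:ℝ) - P (fun _ => 0) m| ≤ 5 / S m := by
      intro m
      have := S_pos m
      simp [P]
      positivity
    have h := haar_lower ((0:ℝ) : UnitAddCircle) (Bad (col α₁ α₂)) (1/4) (3/4) (by norm_num)
      (by norm_num) (by
        intro u hu
        apply bad_of_far hd hx
        refine Filter.Eventually.of_forall fun i n => ?_
        have hT : T (fun _ => 0) i = 0 := by simp [T]
        rw [hT]
        rcases le_or_gt n 0 with hn | hn
        · have : (n:ℝ) ≤ 0 := by exact_mod_cast hn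
          rw [le_abs]
          left
          linarith [hu.1]
        · have : (1:ℝ) ≤ (n:ℝ) := by exact_mod_cast hn
          rw [le_abs]
          right
          linarith [hu.2])
    refine lt_of_lt_of_le ?_ h
    rw [ENNReal.ofReal_pos]
    norm_num
  · intro hsub
    have hd : Adm (fun _ => 0) := by
      intro k
      have := S_pos k
      simp
      linarith
    have hx : ∀ m, |(0:ℝ) - P (fun _ => 0) m| ≤ 5 / S m := by
      intro m
      have := S_pos m
      simp [P]
      positivity
    have h1 : (![((0:ℝ) : UnitAddCircle), ((0:ℝ) : UnitAddCircle)] : Torus 2) ∈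
        (hor ((0:ℝ) : UnitAddCircle)).supp := by
      refine ⟨fun _ => ((0:ℝ) : UnitAddCircle), ?_⟩
      rw [hor_apply]
    refine not_bad hd hx 0 ?_ (hsub h1)
    intro κ hκ
    refine Filter.Frequently.of_forall fun i => ?_
    have hT : T (fun _ => 0) (i+1) = 0 := by simp [T]
    rw [hT]
    exact ⟨rfl, by norm_num, by linarith⟩

end Pool.Agent.Results.MP_f446af_nt.SuppNotBad
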